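import Pool.Agent.T9h39.TDCongr

/-!
# Finite groups and the defect of the Tate conjecture for divisors

Let `Y` be a smooth projective variety over a finite field with `q` elements, `G` a finite group which
acts on `Y`. For a subgroup `S` let `δ(Y/S)` be the **defect** of the Tate conjecture for the quotient
`Y/S`: the difference of the multiplicity of `q` as a root of the characteristic polynomial of the
Frobenius endomorphism on `H²(Y/S)` and of the dimension of the space which is spanned by the classes
of divisors. Both equalities of the question hold for `Y/S` if and only if `δ(Y/S) = 0`
(`Pool.Agent.T9h39.TD.tate_iff`).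

**Theorem.** There is a representation `W` of `G` of dimension `δ(Y)` whose character has rational
values such that `δ(Y/S)` is the dimension of the space of the `S`-invariants in `W`, for all subgroups
`S`. So the defects of all quotients are given by one rational character, and they satisfy all
relations between the permutation characters of `G` (if `∑ a_S 1_S^G = 0` then `∑ a_S δ(Y/S) = 0`; these
are the relations of Accola, Kani and Rosen). In particular:

(a) **If `σ ∈ G` has prime order `r` then `δ(Y) - δ(Y/σ)` is divisible by `r - 1`.** So if the Tate
conjecture holds for `Y/σ`, for example if `Y/σ` is a rational surface, then it holds for `Y` as soon as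
one knows divisors on `Y` whose classes span a space of dimension greater than `m - (r - 1)`, where `m` is
the multiplicity of `q` as a root of `Q_2(Y, T)`; if the defect is not zero, it is at least `r - 1`.

(b) **If `G` has a partition (every `g ≠ 1` is in exactly one of the proper nontrivial subgroups `S`
in `P`) then the Tate conjecture holds for `Y` if and only if it holds for all `Y/S`, `S ∈ P`.** Examples
of groups with a partition: noncyclic groups of order `p²` or `p q` (`p`, `q` primes; the members of `P`
are the subgroups of prime order), elementary abelian groups, dihedral groups of order `2 n`, `n` odd
(`P`: the subgroup of rotations and the subgroups generated by a reflection), Frobenius groups,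
`PSL(2, q)`.

Since irreducible representations of abelian groups have kernels with cyclic quotient, the
theorem gives for abelian `G`: the Tate conjecture holds for `Y` if and only if it holds for all `Y/S`
with `G/S` cyclic. For example, let `Y` be a smooth complete intersection of four diagonal quadrics
`∑ a_ij x_j² = 0` in the projective space of dimension six, in odd characteristic: a surface of general
type with geometric genus `7`, a covering of the plane with group `(ℤ/2)^6`, branched in seven lines. The
quotients by the subgroups of index two are the double planes which are branched in at most six of
these lines; they are rational or K3 surfaces, and the Tate conjecture is known for these. So the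
Tate conjecture holds for `Y`. The same argument applies to the smooth complete intersections of
two diagonal cubics in the projective space of dimension four (characteristic not three): the
quotients by the subgroups of index three are rational or K3 surfaces.

The structure `Var` contains the cohomology `H²(1)`, the endomorphism `F = F^* / q`, the divisors up to
homological equivalence with rational coefficients (classes which are linearly independent over `ℚ`
are linearly independent over the field `K` of `ℓ`-adic numbers). `Action.quot A S` is the quotient by
`S`: its cohomology and its divisors are the `S`-invariants. (If `Y` is a surface, a smooth projective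
model of `Y/S` has the same defect, since the classes of the exceptional curves are algebraic.)
`Action.IsRational` are the theorems of Deligne and of Katz and Messing: the characteristic polynomial
of `F` and the traces of `g F ^ n` are rational.

The proof: the projection to the generalized eigenspace `E` of `F` for the eigenvalue `1` is a
polynomial in `F` with rational coefficients, so that the character of `E` is rational; the one of the
space `V` of the divisor classes is rational since `V` has a rational structure. `W` is a stable
complement of `V` in `E`.
-/

namespace Pool.Agent.Results.MP_8ac872_ag.DefectsOfQuotients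

open Pool.Agent.T9h39.TD Module

/-- **The defects of the quotients of a variety with an action of a finite group.** -/
theorem result {K G : Type} [Field K] [CharZero K] [Group G] [Finite G] (Y : Var K)
    (A : Action Y G) (hA : A.IsRational) :
    (∃ W : FinRep K G, W.dim = Y.defect ∧ W.HasRationalCharacter ∧
      ∀ S : Subgroup G, (A.quot S).defect = W.fixedDim S) ∧
    (∀ σ : G, (orderOf σ).Prime → ∃ m : ℕ,
      Y.defect = (A.quot (Subgroup.zpowers σ)).defect + m * (orderOf σ - 1)) ∧
    ∀ P : Set (Subgroup G), Nontrivial G → IsPartition P →
      (Y.Tate ↔ ∀ S ∈ P, (A.quot S).Tate) := by
  obtain ⟨C⟩ := exists_compl A hA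
  have hdef := quot_defect A C
  have hY := defect_eq A C
  refine ⟨⟨⟨C.W, C.τ⟩, hY.symm, C.rat, hdef⟩, ?_, ?_⟩
  · intro σ hσ
    have hmul : ∀ g h, C.τ.act (g * h) = C.τ.act g * C.τ.act h := fun g h =>
      LinearMap.ext (C.τ.mul g h)
    have hone : C.τ.act 1 = 1 := LinearMap.ext C.τ.one
    have hpow : ∀ n : ℕ, C.τ.act (σ ^ n) = C.τ.act σ ^ n := by
      intro n
      induction n with
      | zero => rw [pow_zero, pow_zero, hone]
      | succ n ih => rw [pow_succ, pow_succ, hmul, ih]
    have h1 : (C.τ.act σ) ^ (orderOf σ) = 1 := by rw [← hpow, pow_orderOf_eq_one, hone]
    obtain ⟨m, hm⟩ := congr hσ h1 (C.rat σ)
    refine ⟨m, ?_⟩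
    have h2 : fixed C.τ (Subgroup.zpowers σ) = LinearMap.ker (C.τ.act σ - 1) := by
      ext x
      constructor
      · intro hx
        change (C.τ.act σ - 1) x = 0
        rw [LinearMap.sub_apply, hx σ (Subgroup.mem_zpowers σ)]
        exact sub_self _
      · intro hx
        have h3 : C.τ.act σ x = x := sub_eq_zero.1 hx
        have h4 : ∀ n : ℕ, C.τ.act (σ ^ n) x = x := by
          intro n
          induction n with
          | zero => rw [pow_zero, C.τ.one]
          | succ n ih => rw [pow_succ, C.τ.mul, h3, ih]
        have h5 : ∀ n : ℕ, C.τ.act ((σ ^ n)⁻¹) x = x := by
          intro n
          conv_lhs => rw [← h4 n]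
          rw [← C.τ.mul, inv_mul_cancel, C.τ.one]
        rintro _ ⟨n, rfl⟩
        obtain ⟨n, rfl | rfl⟩ := Int.eq_nat_or_neg n
        · change C.τ.act (σ ^ (n : ℤ)) x = x
          rw [zpow_natCast]
          exact h4 n
        · change C.τ.act (σ ^ (-(n : ℤ))) x = x
          rw [zpow_neg, zpow_natCast]
          exact h5 n
    rw [hY, hdef, h2]
    exact hm
  · intro P hG hP
    constructor
    · intro h S _
      rw [tate_iff, hY] at h
      rw [tate_iff, hdef]
      have h1 := Submodule.finrank_le (fixed C.τ S)
      omega
    · intro h
      rw [tate_iff, hY]
      have h1 : ∀ S ∈ P, ∀ x ∈ fixed C.τ S, x = 0 := by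
        intro S hS x hx
        have h2 := h S hS
        rw [tate_iff, hdef, Submodule.finrank_eq_zero] at h2
        rw [h2] at hx
        exact hx
      have h2 := eq_zero_of_partition C.τ hP h1
      have h3 : Subsingleton C.W := ⟨fun a b => by rw [h2 a, h2 b]⟩
      exact Module.finrank_zero_of_subsingleton

end Pool.Agent.Results.MP_8ac872_ag.DefectsOfQuotients
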