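import Pool.Agent.T9h63.LG.Fin

/-!
# The Tate conjecture for divisors in all Galois coverings of `ℓ`-power degree of the base of a fibration

Let `k` be a finite field with `q` elements, `X` a smooth projective surface over `k` with a morphism with
connected fibres to a smooth projective curve `C` (a section is assumed to exist), `K = k(C)`, and `J` the
Jacobian of the generic fibre, a curve of any genus over `K`; `J` is supposed to have no constant part. The
number of points of a fibre is `#X_v(k_n) = 1 + q ^ n c_v(n) - tr(F ^ n | H¹(X_v))`, where `c_v(n)` is the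
number of the irreducible components which are defined over `k_n`, the extension of degree `n`. So

  `L(T) = det(1 - T F | H¹(C, R¹f_* ℚ_λ))`, with `L(J / K, s) = L(q ^ (-s))`,

is the polynomial with `T (dL / dT) / L = ∑_n (∑_{v ∈ C(k_n)} tr(F ^ n | H¹(X_v))) T ^ n` (this is `IsDet`
for `- trace`), and
`A_j = ∏_v det(1 - T ^ (deg v) F_v | H¹(X_v))`, over the closed points `v` with ramification index `ℓ ^ j`. If
`X_v` is smooth with the Jacobian `J_v`, then this factor has at `T = 1 / q` the value
`|J_v(k_v)|`, up to a power of `q`.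

Let now `ℓ` be any prime number which does not divide `q`, and `C' → C` ANY Galois covering of smooth
projective curves over `k` with a group `G` of order `ℓ ^ a`: not necessarily abelian, with arbitrary
ramification, the constant field may grow. Let `X' = X ×_C C'` be the surface which is pulled back to `C'` and
`L'` its polynomial. If `C' → C` is not ramified above the points with singular fibres, then `X'` is smooth.
(More generally, above points with semistable fibres ramification is permitted: then `X'` has to be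
replaced by its minimal resolution, and `L'` does not change, because every new component with `q ^ n`
new points is also a new component of a fibre.)

**Theorem.**

1. `L' ≡ L ^ (ℓ ^ a) ∏_{1 ≤ j ≤ a} A_j ^ (ℓ ^ a - ℓ ^ (a - j))` modulo `ℓ`.
2. Let `μ` be the multiplicity of the root `1 / q` modulo `ℓ`. Then
   `μ(L') = |G| μ(L) + |G| ∑_v (1 - 1 / e_v) μ_v`, where `μ_v` is the contribution of `v` to `μ(A_j)`.
3. Let `n > 0`. If no `Φ_e(q T)`, for a divisor `e > 1` of `n` prime to `ℓ`, divides `L ∏_j A_j` modulo `ℓ` (for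
   example if `n` is a power of `ℓ`), then the number of the roots `1 / α` of `L'` with `α ^ n = q ^ n`, the
   order of the zero of `L(J / K' k_n, s)` at `s = 1`, is at most `μ(L')`.
4. `ℓ` divides the integer `q ^ (deg L') L'(1 / q)` if and only if it divides `q ^ (deg L) L(1 / q)` or one of
   the numbers `q ^ (deg A_j) A_j(1 / q)`; for smooth fibres the last condition means that `ℓ` divides
   `|J_v(k_v)|` for a point `v` above which `C'` is ramified.
5. If `ℓ` divides none of these numbers, then for all `n` as in 3 no root `1 / α` of `L'` satisfies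
   `α ^ n = q ^ n`.

**Consequences.** By Tate's theorem the rank of `J(K')`, `K' = k(C')`, is at most the order of the zero of `L'`
at `1 / q`, with equality if and only if the conjecture of this problem holds for `X'`. So 3 bounds the rank
of `J(K' k_n)` by `|G| (μ(L) + ∑_v (1 - 1 / e_v) μ_v)`, for all Galois extensions of `ℓ`-power degree. And 5
gives the following. Suppose that `L(J / K, 1) ≠ 0`, so that `N = q ^ (deg L) L(1 / q)` is an integer
different from `0`. Let `ℓ` be ANY prime number which does not divide `q N`, and let `S` be the set of the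
points `v` of `C` such that `X_v` is smooth and `ℓ` does not divide `|J_v(k_v)|`; usually it has a positive
density. Then for ALL Galois coverings `C' → C` of `ℓ`-power degree which are unramified outside `S` the
Tate conjecture for divisors holds for `X ×_C C'` over `k`, all its extensions of `ℓ`-power degree (and over
the other extensions as in 3), for all primes, and `J(K')` is finite: the group `J(K_S(ℓ))` is a torsion
group, where `K_S(ℓ)` is the maximal pro-`ℓ`-extension of `K` which is unramified outside the infinite set `S`,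
with its extremely large Galois group; the conjecture of Birch and Swinnerton-Dyer holds for `J` over all
its finite subextensions. The geometric genus of these surfaces is unbounded; if, for example, `J` is an
elliptic curve with non-constant invariant `j`, then for all but finitely many `ℓ` there are such `C'` with
arbitrarily large genus and non-abelian group `G`.

For `ℓ = 2` and a quadratic extension `K' = K(√d)` this concerns the quadratic twist `J_d` of `J`, since
`L' = L · L(J_d)`.

**Example.** The pencil of Hesse `t_0 (x ^ 3 + y ^ 3 + z ^ 3) = t_1 x y z`, in characteristic different from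
`3`: it has four singular fibres, which are triangles, and is the plane blown up in nine points. So
`∑_v tr(F ^ n | H¹(X_v)) = 0` for all `n`, and `L = 1`. Let `ℓ` be a prime number with `ℓ ∤ 3 q`, and `C' → ℙ¹`
any Galois covering with a group of `ℓ`-power order which is unramified above the four points and above
the `v` such that `ℓ` divides `|X_v(k_v)|`. Then the Tate conjecture for divisors holds for the surface
`t_0(c) (x ^ 3 + y ^ 3 + z ^ 3) = t_1(c) x y z` in `ℙ² × C'`. The same is true for all other rational elliptic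
surfaces with `L = 1` (the extremal ones).

**Proof.** The points of `C'` above a point `v` with `F ^ d v = v` form an orbit of `G`, on which `F ^ d` acts as
an automorphism of this set with operation of `G`. So its cycles have `ℓ`-power lengths, and `1 - T ^ (d ℓ ^ i)`
is congruent to `(1 - T ^ d) ^ (ℓ ^ i)` modulo `ℓ`. So for every variety or set `Z` with an action of Frobenius
above `C` the zeta function of the part of `Z ×_C C'` above the points with ramification index `ℓ ^ j` is
modulo `ℓ` the power with the exponent `ℓ ^ (a - j)` of that of the part of `Z`. This is applied to `X`, to `C`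
and, with `q T` in place of `T`, to the set of the components of the fibres. For 3 one considers
`Φ_(e ℓ ^ b)(q T)` and the minimal polynomials of the numbers `α`.

In the Lean statement `C`, `C'` and `X` are given by equations and may be of any dimension, `C' → C` is
given by forms `h_i`, and the theorem is proved for all groups `G` acting on the points of `C'` over the
algebraic closure which commute with Frobenius and are transitive on the fibres.
-/

set_option autoImplicit false

namespace Pool.Agent.Results.MP_8ac872_ag.GaloisBaseChange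

open Polynomial

/-- The first nonzero coordinate of `v` is `1`: every point of the projective space has exactly one such
vector of homogeneous coordinates. -/
def Normalised {K : Type} [Field K] {r : ℕ} (v : Fin (r + 1) → K) : Prop :=
  ∃ i, v i = 1 ∧ ∀ j < i, v j = 0

/-- The points, over the algebraic closure of `k`, of the subvariety of `ℙ^M` defined by the equations in
the set `E`. -/
def points (k : Type) [Field k] {M : ℕ} (E : Set (MvPolynomial (Fin (M + 1)) k)) :
    Set (Fin (M + 1) → AlgebraicClosure k) :=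
  {v | Normalised v ∧ ∀ g ∈ E, MvPolynomial.aeval v g = 0}

/-- The Frobenius map on the points. -/
noncomputable def frob (k : Type) [Field k] [Fintype k] {M : ℕ} (v : Fin (M + 1) → AlgebraicClosure k) :
    Fin (M + 1) → AlgebraicClosure k := fun i => v i ^ Fintype.card k

/-- The point `v` is rational over the extension of `k` of degree `n`. -/
def RationalOver (k : Type) [Field k] [Fintype k] (n : ℕ) {M : ℕ}
    (v : Fin (M + 1) → AlgebraicClosure k) : Prop := ∀ i, v i ^ Fintype.card k ^ n = v i

/-- The point `c` lies above the point `v` of the variety `C` with the equations `E` for the map given by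
the forms `h`: the vector `h(c)` is a nonzero multiple of `v`. -/
def LiesAbove (k : Type) [Field k] {M M' : ℕ} (E : Set (MvPolynomial (Fin (M + 1)) k))
    (h : Fin (M + 1) → MvPolynomial (Fin (M' + 1)) k) (c : Fin (M' + 1) → AlgebraicClosure k)
    (v : Fin (M + 1) → AlgebraicClosure k) : Prop :=
  v ∈ points k E ∧ ∃ t : AlgebraicClosure k, t ≠ 0 ∧ ∀ i, MvPolynomial.aeval c (h i) = t * v i

/-- The variety `C'` with the equations `E'` is, by the map given by the forms `h`, a covering of the
variety `C` with the equations `E`, and the group `G` of order `ℓ ^ a`, which acts on `C'` (compatibly with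
Frobenius), is transitive on its fibres. -/
structure IsGaloisCovering (k : Type) [Field k] [Fintype k] (ℓ a : ℕ) {M M' : ℕ}
    (E : Set (MvPolynomial (Fin (M + 1)) k)) (E' : Set (MvPolynomial (Fin (M' + 1)) k))
    (h : Fin (M + 1) → MvPolynomial (Fin (M' + 1)) k) (G : Type) [Group G]
    [MulAction G (Fin (M' + 1) → AlgebraicClosure k)] : Prop where
  order : Nat.card G = ℓ ^ a
  action : ∀ (g : G), ∀ c ∈ points k E', g • c ∈ points k E' ∧ frob k (g • c) = g • frob k c
  morphism : ∀ c ∈ points k E', ∃ v, LiesAbove k E h c v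
  surjective : ∀ v ∈ points k E, ∃ c ∈ points k E', LiesAbove k E h c v
  fibres : ∀ c ∈ points k E', ∀ v, LiesAbove k E h c v →
    ∀ c' ∈ points k E', (LiesAbove k E h c' v ↔ ∃ g : G, c' = g • c)

/-- The points of `C` above which the stabilisers in `G` of the points of `C'` have the order `e`, that is,
the points with the ramification index `e`. -/
def ramified (k : Type) [Field k] {M M' : ℕ} (E : Set (MvPolynomial (Fin (M + 1)) k))
    (E' : Set (MvPolynomial (Fin (M' + 1)) k)) (h : Fin (M + 1) → MvPolynomial (Fin (M' + 1)) k)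
    (G : Type) [Group G] [MulAction G (Fin (M' + 1) → AlgebraicClosure k)] (e : ℕ) :
    Set (Fin (M + 1) → AlgebraicClosure k) :=
  {v | ∃ c ∈ points k E', LiesAbove k E h c v ∧ Nat.card (MulAction.stabilizer G c) = e}

/-- A family of curves over the variety `C` with the equations `E`, given by its equations in
`ℙ^r × C`, and the set of the pairs (point `v` of `C`, irreducible component of the fibre above `v`), with
its map to `C` and its Frobenius map. -/
structure Family (k : Type) [Field k] [Fintype k] {M : ℕ}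
    (E : Set (MvPolynomial (Fin (M + 1)) k)) where
  r : ℕ
  equations : Set (MvPolynomial (Fin (r + 1) ⊕ Fin (M + 1)) k)
  Component : Type
  base : Component → Fin (M + 1) → AlgebraicClosure k
  frobenius : Component → Component
  base_mem : ∀ δ, base δ ∈ points k E
  base_frobenius : ∀ δ, base (frobenius δ) = frob k (base δ)
  finite : ∀ n > 0, {δ | frobenius^[n] δ = δ}.Finite

variable {k : Type} [Field k] [Fintype k] {M : ℕ} {E : Set (MvPolynomial (Fin (M + 1)) k)}

/-- The points `(x, v)` of the total space of the family. -/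
def Family.total (X : Family k E) :
    Set ((Fin (X.r + 1) → AlgebraicClosure k) × (Fin (M + 1) → AlgebraicClosure k)) :=
  {p | Normalised p.1 ∧ p.2 ∈ points k E ∧
    ∀ g ∈ X.equations, MvPolynomial.aeval (Sum.elim p.1 p.2) g = 0}

/-- The sum over the rational points `v` in the set `S`, over the extension `k_n` of degree `n`, of
`1 + q ^ n · #(components of X_v over k_n) - #X_v(k_n)`, the trace of Frobenius on `H¹(X_v)`. -/
noncomputable def Family.trace (X : Family k E) (S : Set (Fin (M + 1) → AlgebraicClosure k))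
    (n : ℕ) : ℤ :=
  ({v | v ∈ points k E ∧ v ∈ S ∧ RationalOver k n v}.ncard : ℤ) + (Fintype.card k : ℤ) ^ n *
    ({δ | X.base δ ∈ S ∧ X.frobenius^[n] δ = δ}.ncard : ℤ) -
      ({p | p ∈ X.total ∧ p.2 ∈ S ∧ RationalOver k n p.1 ∧ RationalOver k n p.2}.ncard : ℤ)

/-- The same sum over the rational points of the covering `C'`, for the family which is pulled
back to `C'`. -/
noncomputable def Family.traceAbove (X : Family k E) {M' : ℕ}
    (E' : Set (MvPolynomial (Fin (M' + 1)) k)) (h : Fin (M + 1) → MvPolynomial (Fin (M' + 1)) k)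
    (n : ℕ) : ℤ :=
  ({c | c ∈ points k E' ∧ RationalOver k n c}.ncard : ℤ) + (Fintype.card k : ℤ) ^ n *
    ({z : X.Component × (Fin (M' + 1) → AlgebraicClosure k) | z.2 ∈ points k E' ∧
      LiesAbove k E h z.2 (X.base z.1) ∧ X.frobenius^[n] z.1 = z.1 ∧
        RationalOver k n z.2}.ncard : ℤ) -
      ({z : ((Fin (X.r + 1) → AlgebraicClosure k) × (Fin (M + 1) → AlgebraicClosure k)) ×
          (Fin (M' + 1) → AlgebraicClosure k) | z.1 ∈ X.total ∧ z.2 ∈ points k E' ∧
        LiesAbove k E h z.2 z.1.2 ∧ RationalOver k n z.1.1 ∧ RationalOver k n z.1.2 ∧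
          RationalOver k n z.2}.ncard : ℤ)

/-- `P = det (1 - T Φ)` for an endomorphism `Φ` such that `Φ ^ n` has the trace `t n` for `n > 0`: we have
`P(0) = 1` and `T P' / P = - ∑_{n > 0} t n T ^ n`. -/
def IsDet (t : ℕ → ℤ) (P : ℤ[X]) : Prop :=
  P.coeff 0 = 1 ∧ ((X * derivative P : ℤ[X]) : PowerSeries ℤ) = (P : PowerSeries ℤ) *
    PowerSeries.mk fun n => if n = 0 then 0 else - t n

/-- the multiplicity of the root `1 / q` of `P` modulo `ℓ` -/
noncomputable def mult (ℓ q : ℕ) [Fact ℓ.Prime] (P : ℤ[X]) : ℕ :=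
  (P.map (Int.castRingHom (ZMod ℓ))).rootMultiplicity (q : ZMod ℓ)⁻¹

open Classical in
/-- the number, with multiplicities, of the roots `z = 1 / α` of `P` such that `α ^ n = q ^ n` -/
noncomputable def tateCount (q n : ℕ) (P : ℤ[X]) : ℕ :=
  Multiset.card ((P.map (Int.castRingHom ℂ)).roots.filter fun z => (z * (q : ℂ)) ^ n = 1)

/-- no polynomial `Φ_e(q T)`, where `Φ_e` is the cyclotomic polynomial of a divisor `e > 1` of `n` which is
prime to `ℓ`, divides `P` modulo `ℓ`; there is no condition if `n` is a power of `ℓ` -/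
def NoCyclotomic (ℓ q n : ℕ) (P : ℤ[X]) : Prop :=
  ∀ e : ℕ, e ∣ n → 1 < e → ¬ ℓ ∣ e →
    ¬ (cyclotomic e (ZMod ℓ)).comp (C (q : ZMod ℓ) * X) ∣ P.map (Int.castRingHom (ZMod ℓ))

/-- the integer `q ^ (deg P) P(1 / q)` -/
noncomputable def valueAtOne (q : ℕ) (P : ℤ[X]) : ℤ := P.reverse.eval (q : ℤ)

/-- **The Tate conjecture for divisors in Galois coverings of `ℓ`-power degree of the base.**

Let `k` be a finite field with `q` elements, `C` a variety over `k` with equations `E`, and `X` a family
over `C` with its set of components (`Family`). Let `L` be the polynomial `det (1 - T Φ)` for an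
endomorphism with the traces
`- ∑_{v ∈ C(k_n)} (1 + q ^ n #(components of X_v over k_n) - #X_v(k_n))`, the polynomial of the `L`-function
of the Jacobian of the generic fibre. Let `ℓ` be a prime number which does not divide `q`, `C' → C` a Galois
covering with a group `G` of order `ℓ ^ a`, `L'` the polynomial of the family which is pulled back to `C'`,
and `A j` that of the fibres above the points with ramification index `ℓ ^ j`. Then

1. `L' = L ^ (ℓ ^ a) ∏_{1 ≤ j ≤ a} (A j) ^ (ℓ ^ a - ℓ ^ (a - j))` modulo `ℓ`;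
2. `mult L' = ℓ ^ a mult L + ∑_j (ℓ ^ a - ℓ ^ (a - j)) mult (A j)` for the multiplicities of the root `1 / q`
   modulo `ℓ`;
3. if `n > 0` and no `Φ_e(q T)`, `e > 1` a divisor of `n` prime to `ℓ`, divides `L ∏_j A j` modulo `ℓ`, then at
   most `mult L'` roots `z = 1 / α` of `L'` satisfy `α ^ n = q ^ n`;
4. `ℓ` divides the integer `q ^ (deg L') L'(1 / q)` if and only if it divides `q ^ (deg L) L(1 / q)` or
   `q ^ (deg A j) (A j)(1 / q)` for some `1 ≤ j ≤ a`;
5. if it divides none of these, then for all `n` as in 3 no root `z = 1 / α` of `L'` satisfies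
   `α ^ n = q ^ n`. -/
theorem result (k : Type) [Field k] [Fintype k] (ℓ : ℕ) [Fact ℓ.Prime]
    (hℓ : ¬ ℓ ∣ Fintype.card k) {M : ℕ} (E : Set (MvPolynomial (Fin (M + 1)) k))
    (X : Family k E) (L : ℤ[X]) (hL : IsDet (fun n => - X.trace Set.univ n) L)
    {M' : ℕ} (a : ℕ) (E' : Set (MvPolynomial (Fin (M' + 1)) k))
    (h : Fin (M + 1) → MvPolynomial (Fin (M' + 1)) k) (G : Type) [Group G]
    [MulAction G (Fin (M' + 1) → AlgebraicClosure k)] (hG : IsGaloisCovering k ℓ a E E' h G)
    (A : ℕ → ℤ[X])
    (hA : ∀ j, 1 ≤ j → j ≤ a → IsDet (X.trace (ramified k E E' h G (ℓ ^ j))) (A j))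
    (L' : ℤ[X]) (hL' : IsDet (fun n => - X.traceAbove E' h n) L') :
    L'.map (Int.castRingHom (ZMod ℓ)) = L.map (Int.castRingHom (ZMod ℓ)) ^ ℓ ^ a *
      ∏ j ∈ Finset.Icc 1 a, (A j).map (Int.castRingHom (ZMod ℓ)) ^ (ℓ ^ a - ℓ ^ (a - j)) ∧
    mult ℓ (Fintype.card k) L' = ℓ ^ a * mult ℓ (Fintype.card k) L +
      ∑ j ∈ Finset.Icc 1 a, (ℓ ^ a - ℓ ^ (a - j)) * mult ℓ (Fintype.card k) (A j) ∧
    (∀ n > 0, NoCyclotomic ℓ (Fintype.card k) n (L * ∏ j ∈ Finset.Icc 1 a, A j) →
      tateCount (Fintype.card k) n L' ≤ mult ℓ (Fintype.card k) L') ∧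
    ((ℓ : ℤ) ∣ valueAtOne (Fintype.card k) L' ↔ (ℓ : ℤ) ∣ valueAtOne (Fintype.card k) L ∨
      ∃ j ∈ Finset.Icc 1 a, (ℓ : ℤ) ∣ valueAtOne (Fintype.card k) (A j)) ∧
    (¬ (ℓ : ℤ) ∣ valueAtOne (Fintype.card k) L →
      (∀ j ∈ Finset.Icc 1 a, ¬ (ℓ : ℤ) ∣ valueAtOne (Fintype.card k) (A j)) →
      ∀ n > 0, NoCyclotomic ℓ (Fintype.card k) n (L * ∏ j ∈ Finset.Icc 1 a, A j) →
      ∀ z : ℂ, (L'.map (Int.castRingHom ℂ)).eval z = 0 →
        (z * (Fintype.card k : ℂ)) ^ n ≠ 1) := by
  have hq : ((Fintype.card k : ℕ) : ZMod ℓ) ≠ 0 := fun h0 =>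
    hℓ ((ZMod.natCast_eq_zero_iff _ ℓ).1 h0)
  -- the covering
  have hpt : ∀ {m : ℕ} (T : Set (MvPolynomial (Fin (m + 1)) k))
      (v : Fin (m + 1) → AlgebraicClosure k), v ∈ points k T ↔
        Pool.Agent.T9h63.KT.onE (K := AlgebraicClosure k) T v := fun T v => Iff.rfl
  have H : Pool.Agent.T9h63.LG.GalCov ℓ a
      (Pool.Agent.W555.TC.Phi k (AlgebraicClosure k) (ι := Fin (M + 1)))
      (Pool.Agent.W555.TC.Phi k (AlgebraicClosure k) (ι := Fin (M' + 1)))
      (Pool.Agent.T9h63.KT.onE E) (Pool.Agent.T9h63.KT.onE E') (LiesAbove k E h) G := by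
    refine ⟨hG.order, fun g c hc => (hG.action g c hc).1,
      fun g c hc => (hG.action g c hc).2.symm ▸ rfl, ?_, ?_, ?_, ?_, ?_⟩
    · intro c hc
      exact Pool.Agent.T9h63.KT.onE_Phi E' hc
    · intro c c' hcc
      funext i
      have h1 := congrFun hcc i
      exact (Pool.Agent.W555.TC.fr k (AlgebraicClosure k)).toRingHom.injective h1
    · intro v hv
      exact hG.surjective v hv
    · rintro c v ⟨hv, t, ht, hcv⟩
      refine ⟨Pool.Agent.T9h63.KT.onE_Phi E hv, Pool.Agent.W555.TC.fr k (AlgebraicClosure k) t,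
        ?_, fun i => ?_⟩
      · exact pow_ne_zero _ ht
      · rw [Pool.Agent.W555.TC.fr_aeval, hcv i, map_mul]
        rfl
    · intro c v c' hc hcv hc'
      exact hG.fibres c hc v hcv c' hc'
  have hfV : ∀ {m : ℕ} (n : ℕ), 0 < n → {z : Fin (m + 1) → AlgebraicClosure k |
      Function.IsPeriodicPt (Pool.Agent.W555.TC.Phi k (AlgebraicClosure k)) n z}.Finite :=
    fun n hn => Pool.Agent.W555.TC.fix_finite k (AlgebraicClosure k) hn
  have hper : ∀ {m : ℕ} (n : ℕ) (v : Fin (m + 1) → AlgebraicClosure k),
      Function.IsPeriodicPt (Pool.Agent.W555.TC.Phi k (AlgebraicClosure k)) n v ↔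
        RationalOver k n v := fun n v => Pool.Agent.W555.TC.per_iff k (AlgebraicClosure k) n v
  -- the total space
  set Φ : (Fin (X.r + 1) → AlgebraicClosure k) × (Fin (M + 1) → AlgebraicClosure k) →
      (Fin (X.r + 1) → AlgebraicClosure k) × (Fin (M + 1) → AlgebraicClosure k) :=
    Prod.map (Pool.Agent.W555.TC.Phi k (AlgebraicClosure k))
      (Pool.Agent.W555.TC.Phi k (AlgebraicClosure k)) with hΦ
  have hs : ∀ p, p ∈ X.total → Φ p ∈ X.total := by
    rintro ⟨x, v⟩ ⟨h1, h2, h3⟩
    refine ⟨Pool.Agent.W555.TC.Nrm_Phi h1, Pool.Agent.T9h63.KT.onE_Phi E h2, fun g hg => ?_⟩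
    have h4 : (Sum.elim (Φ (x, v)).1 (Φ (x, v)).2 :
        Fin (X.r + 1) ⊕ Fin (M + 1) → AlgebraicClosure k)
        = Pool.Agent.W555.TC.Phi k (AlgebraicClosure k) (Sum.elim x v) := by
      funext i
      rcases i with i | i
      · rfl
      · rfl
    rw [h4, Pool.Agent.W555.TC.fr_aeval, h3 g hg, map_zero]
  have hfX : ∀ n : ℕ, 0 < n → {z | Function.IsPeriodicPt Φ n z}.Finite := by
    intro n hn
    have h1 : {z | Function.IsPeriodicPt Φ n z} ⊆
        {z | Function.IsPeriodicPt (Pool.Agent.W555.TC.Phi k (AlgebraicClosure k)) n z} ×ˢ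
        {z | Function.IsPeriodicPt (Pool.Agent.W555.TC.Phi k (AlgebraicClosure k)) n z} :=
      fun z hz => (Function.isPeriodicPt_prodMap z).1 hz
    exact ((hfV n hn).prod (hfV n hn)).subset h1
  -- uniqueness of the image
  have huniq : ∀ (c : Fin (M' + 1) → AlgebraicClosure k) (v v' : Fin (M + 1) → AlgebraicClosure k),
      LiesAbove k E h c v → LiesAbove k E h c v' → v = v' := by
    rintro c v v' ⟨h1, t, ht, h2⟩ ⟨h3, t', ht', h4⟩
    exact Pool.Agent.T9h63.LG.nrm_unique h1.1 h3.1 ht ht' (fun i => by rw [← h2, h4])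
  -- the numbers of points
  have hC' : ∀ n : ℕ, 0 < n → Pool.Agent.T9h63.KT.cnt
      (Prod.map (Pool.Agent.W555.TC.Phi k (AlgebraicClosure k) (ι := Fin (M + 1)))
        (Pool.Agent.W555.TC.Phi k (AlgebraicClosure k) (ι := Fin (M' + 1))))
      (Pool.Agent.T9h63.LG.fp (Pool.Agent.T9h63.KT.onE E') (LiesAbove k E h)
        (Pool.Agent.T9h63.KT.onE E) id) n
      = {c | c ∈ points k E' ∧ RationalOver k n c}.ncard := by
    intro n _
    unfold Pool.Agent.T9h63.KT.cnt
    have h1 : {c | c ∈ points k E' ∧ RationalOver k n c} = Prod.snd ''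
        {z | Function.IsPeriodicPt (Prod.map
          (Pool.Agent.W555.TC.Phi k (AlgebraicClosure k) (ι := Fin (M + 1)))
          (Pool.Agent.W555.TC.Phi k (AlgebraicClosure k) (ι := Fin (M' + 1)))) n z ∧
          Pool.Agent.T9h63.LG.fp (Pool.Agent.T9h63.KT.onE E') (LiesAbove k E h)
            (Pool.Agent.T9h63.KT.onE E) id z} := by
      ext c
      constructor
      · rintro ⟨hc, hr⟩
        obtain ⟨v, hv⟩ := hG.morphism c hc
        refine ⟨(v, c), ⟨?_, hv.1, hc, hv⟩, rfl⟩
        rw [Function.isPeriodicPt_prodMap]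
        have h2 := (hper n c).2 hr
        refine ⟨?_, h2⟩
        have h3 := Pool.Agent.T9h63.LG.iter_ov H hv n
        rw [h2.eq] at h3
        exact huniq c _ _ h3 hv
      · rintro ⟨z, ⟨hz, h2⟩, rfl⟩
        rw [Function.isPeriodicPt_prodMap] at hz
        exact ⟨h2.2.1, (hper n z.2).1 hz.2⟩
    rw [h1]
    symm
    apply Set.ncard_image_of_injOn
    rintro ⟨v, c⟩ ⟨_, h2⟩ ⟨v', c'⟩ ⟨_, h3⟩ hcc
    have hcc' : c = c' := hcc
    subst hcc'
    rw [huniq c v v' h2.2.2 h3.2.2]
  have hcongr : ∀ {T : Type} (P Q : T → Prop), (∀ x, P x ↔ Q x) →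
      {x | P x}.ncard = {x | Q x}.ncard := by
    intro T P Q hPQ
    congr 1
    ext x
    exact hPQ x
  have hup := Pool.Agent.T9h63.LG.up_cong H (fun v hv => Pool.Agent.T9h63.KT.onE_Phi E hv)
    (fun n hn => hfV n hn) (fun n hn => hfV n hn) (Φ := Φ) (s := fun p => p ∈ X.total)
    (pr := Prod.snd) hs (fun _ => rfl) (fun p hp => hp.2.1) hfX
    (Φd := X.frobenius) (sd := fun _ => True) (prd := X.base) (fun _ _ => trivial)
    X.base_frobenius (fun δ _ => X.base_mem δ) X.finite (Fintype.card k)
    (L := L) (L' := L') (A := A) (t := fun n => - X.trace Set.univ n)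
    (t' := fun n => - X.traceAbove E' h n)
    (tA := fun j => X.trace (ramified k E E' h G (ℓ ^ j))) hL hL'
    (fun j h1 h2 => hA j h1 h2) ?_ ?_ ?_
  · have hcong := Pool.Agent.T9h63.LG.cong_of_up hL.1 hL'.1 (fun j h1 h2 => (hA j h1 h2).1) hup
    have hdvd := Pool.Agent.T9h63.LG.dvd_pow_of hcong
    refine ⟨hcong, Pool.Agent.T9h63.LG.mult_eq hL.1 (fun j h1 h2 => (hA j h1 h2).1) _ hcong,
      fun n hn hcyc => Pool.Agent.T9h63.LG.card_leC hq hL'.1 hdvd hn hcyc, ?_, ?_⟩
    · unfold valueAtOne
      simp only [Pool.Agent.T9h63.LG.dvd_value hq]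
      exact Pool.Agent.T9h63.LG.zero_iff _ hcong
    · intro h1 h2 n hn hcyc z hz hzn
      have h3 : (L'.map (Int.castRingHom (ZMod ℓ))).eval ((Fintype.card k : ℕ) : ZMod ℓ)⁻¹ ≠ 0 := by
        rw [Ne, Pool.Agent.T9h63.LG.zero_iff _ hcong]
        unfold valueAtOne at h1 h2
        simp only [Pool.Agent.T9h63.LG.dvd_value hq] at h1 h2
        rintro (h4 | ⟨j, hj, h4⟩)
        · exact h1 h4
        · exact h2 j hj h4
      have h4 := Pool.Agent.T9h63.LG.card_leC hq hL'.1 hdvd hn hcyc
      rw [rootMultiplicity_eq_zero h3, Nat.le_zero, Multiset.card_eq_zero] at h4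
      have hne : L'.map (Int.castRingHom ℂ) ≠ 0 := by
        intro h0
        have := congrArg (fun P : ℂ[X] => P.coeff 0) h0
        simp [coeff_map, hL'.1] at this
      have h5 : z ∈ (L'.map (Int.castRingHom ℂ)).roots.filter
          (fun z => (z * (Fintype.card k : ℂ)) ^ n = 1) :=
        Multiset.mem_filter.2 ⟨(mem_roots hne).2 hz, hzn⟩
      rw [h4] at h5
      exact Multiset.notMem_zero z h5
  · intro n hn
    show - X.trace Set.univ n = _
    unfold Family.trace Pool.Agent.T9h63.KT.cnt
    rw [hcongr (fun v => v ∈ points k E ∧ v ∈ Set.univ ∧ RationalOver k n v)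
      (fun v => Function.IsPeriodicPt (Pool.Agent.W555.TC.Phi k (AlgebraicClosure k)) n v ∧
        Pool.Agent.T9h63.KT.onE E v)
      (fun v => ⟨fun h => ⟨(hper n v).2 h.2.2, h.1⟩, fun h => ⟨h.2, trivial, (hper n v).1 h.1⟩⟩),
      hcongr (fun δ => X.base δ ∈ Set.univ ∧ X.frobenius^[n] δ = δ)
      (fun δ => Function.IsPeriodicPt X.frobenius n δ ∧ True)
      (fun δ => ⟨fun h => ⟨h.2, trivial⟩, fun h => ⟨trivial, h.1⟩⟩),
      hcongr (fun p => p ∈ X.total ∧ p.2 ∈ Set.univ ∧ RationalOver k n p.1 ∧
        RationalOver k n p.2)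
      (fun p => Function.IsPeriodicPt Φ n p ∧ p ∈ X.total)
      (fun p => by
        rw [hΦ, Function.isPeriodicPt_prodMap, hper, hper]
        exact ⟨fun h => ⟨⟨h.2.2.1, h.2.2.2⟩, h.1⟩, fun h => ⟨h.2, trivial, h.1.1, h.1.2⟩⟩)]
    ring
  · intro n hn
    show - X.traceAbove E' h n = _
    rw [hC' n hn]
    unfold Family.traceAbove Pool.Agent.T9h63.KT.cnt Pool.Agent.T9h63.LG.fp
    rw [hcongr (fun z : X.Component × (Fin (M' + 1) → AlgebraicClosure k) => z.2 ∈ points k E' ∧
        LiesAbove k E h z.2 (X.base z.1) ∧ X.frobenius^[n] z.1 = z.1 ∧ RationalOver k n z.2)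
      (fun z => Function.IsPeriodicPt (Prod.map X.frobenius
          (Pool.Agent.W555.TC.Phi k (AlgebraicClosure k) (ι := Fin (M' + 1)))) n z ∧
        True ∧ Pool.Agent.T9h63.KT.onE E' z.2 ∧ LiesAbove k E h z.2 (X.base z.1))
      (fun z => by
        rw [Function.isPeriodicPt_prodMap, hper]
        exact ⟨fun h => ⟨⟨h.2.2.1, h.2.2.2⟩, trivial, h.1, h.2.1⟩,
          fun h => ⟨h.2.2.1, h.2.2.2, h.1.1, h.1.2⟩⟩),
      hcongr (fun z : ((Fin (X.r + 1) → AlgebraicClosure k) × (Fin (M + 1) → AlgebraicClosure k)) ×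
          (Fin (M' + 1) → AlgebraicClosure k) => z.1 ∈ X.total ∧ z.2 ∈ points k E' ∧
        LiesAbove k E h z.2 z.1.2 ∧ RationalOver k n z.1.1 ∧ RationalOver k n z.1.2 ∧
          RationalOver k n z.2)
      (fun z => Function.IsPeriodicPt (Prod.map Φ
          (Pool.Agent.W555.TC.Phi k (AlgebraicClosure k) (ι := Fin (M' + 1)))) n z ∧
        z.1 ∈ X.total ∧ Pool.Agent.T9h63.KT.onE E' z.2 ∧ LiesAbove k E h z.2 z.1.2)
      (fun z => by
        rw [Function.isPeriodicPt_prodMap, hper, hΦ, Function.isPeriodicPt_prodMap, hper, hper]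
        exact ⟨fun h => ⟨⟨⟨h.2.2.2.1, h.2.2.2.2.1⟩, h.2.2.2.2.2⟩, h.1, h.2.1, h.2.2.1⟩,
          fun h => ⟨h.2.1, h.2.2.1, h.2.2.2, h.1.1.1, h.1.1.2, h.1.2⟩⟩)]
    ring
  · intro j _ _ n hn
    show X.trace (ramified k E E' h G (ℓ ^ j)) n = _
    unfold Family.trace Pool.Agent.T9h63.KT.cnt Pool.Agent.T9h63.LG.sj
    rw [hcongr (fun v => v ∈ points k E ∧ v ∈ ramified k E E' h G (ℓ ^ j) ∧ RationalOver k n v)
      (fun v => Function.IsPeriodicPt (Pool.Agent.W555.TC.Phi k (AlgebraicClosure k)) n v ∧
        Pool.Agent.T9h63.KT.onE E v ∧ Pool.Agent.T9h63.LG.rm ℓ j (Pool.Agent.T9h63.KT.onE E')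
          (LiesAbove k E h) G (id v))
      (fun v => ⟨fun h => ⟨(hper n v).2 h.2.2, h.1, h.2.1⟩,
        fun h => ⟨h.2.1, h.2.2, (hper n v).1 h.1⟩⟩),
      hcongr (fun δ => X.base δ ∈ ramified k E E' h G (ℓ ^ j) ∧ X.frobenius^[n] δ = δ)
      (fun δ => Function.IsPeriodicPt X.frobenius n δ ∧ True ∧
        Pool.Agent.T9h63.LG.rm ℓ j (Pool.Agent.T9h63.KT.onE E') (LiesAbove k E h) G (X.base δ))
      (fun δ => ⟨fun h => ⟨h.2, trivial, h.1⟩, fun h => ⟨h.2.2, h.1⟩⟩),
      hcongr (fun p => p ∈ X.total ∧ p.2 ∈ ramified k E E' h G (ℓ ^ j) ∧ RationalOver k n p.1 ∧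
        RationalOver k n p.2)
      (fun p => Function.IsPeriodicPt Φ n p ∧ p ∈ X.total ∧
        Pool.Agent.T9h63.LG.rm ℓ j (Pool.Agent.T9h63.KT.onE E') (LiesAbove k E h) G p.2)
      (fun p => by
        rw [hΦ, Function.isPeriodicPt_prodMap, hper, hper]
        exact ⟨fun h => ⟨⟨h.2.2.1, h.2.2.2⟩, h.1, h.2.1⟩,
          fun h => ⟨h.2.1, h.2.2, h.1.1, h.1.2⟩⟩)]

end Pool.Agent.Results.MP_8ac872_ag.GaloisBaseChange
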