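import Pool.Agent.T9h39.TwMain

/-!
# The Tate conjecture for divisors for most twisted forms

Let `Y` be a smooth projective variety over a finite field with `q` elements and `σ` an automorphism of
`Y` (over this field) of prime order `r`. For `i = 0, ..., r - 1` let `Y_i` be the twisted form of `Y` by
`σ ^ i`: over the algebraic closure it is `Y`, and its Frobenius endomorphism is `σ ^ i F`. All the `Y_i`
have the same quotient `Y/σ`. The **defect** of the Tate conjecture is the difference of the
multiplicity of `q` as a root of the characteristic polynomial of the Frobenius endomorphism on `H²` and
of the dimension of the space spanned by the classes of divisors; both equalities of the question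
hold if and only if the defect is zero (`Pool.Agent.T9h39.TD.tate_iff`).

**Theorem.** There is a set `T` of at most `(b₂(Y) - b₂(Y/σ)) / (r - 1)` numbers `i` such that for all
the other `i < r` and all extensions of the ground field of a degree `n` prime to `r` the multiplicities and
the defects of `Y_i` and of `Y/σ` are the same; in particular the Tate conjecture for divisors holds for
`Y_i` over the extension of degree `n` if and only if it holds for `Y/σ` over this extension.
Moreover `(r - 1) |T|` is at most the difference of the multiplicities for `Y` and for `Y/σ` over the
extension of degree `N r`, for a suitable `N` prime to `r`; this can be much smaller, it counts only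
the eigenvalues of the Frobenius endomorphism on the not invariant part of `H²` which are products of
`q` and a root of unity.

So if the Tate conjecture is known for `Y/σ`, for example if `Y/σ` is a rational surface, then it holds
for all but at most `(b₂(Y) - b₂(Y/σ)) / (r - 1)` of the `r` twisted forms, for each of them over all
the extensions of degree prime to `r`. This says nothing if this number is at least `r`. But for
cyclic coverings with a fixed branch locus it is bounded independently of `r`. For example, let
`f(x, y)` be a polynomial of degree `d` such that the curve `f = 0` is smooth and meets the line at
infinity in `d` distinct points, and let `r` be a prime which divides `q - 1` but not `d`. Then the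
twisted forms of the surface `w ^ r = f(x, y)` are the surfaces `w ^ r = u f(x, y)`, where `u` runs through
the `r` classes of the nonzero elements of the ground field modulo `r`-th powers, the quotient is a
rational surface, and the number is at most `(d - 1)²`, since the Euler characteristic of the
complement of the affine curve is `(d - 1)²`. So for `r > (d - 1)²` the Tate conjecture holds for
smooth projective models of at least `r - (d - 1)²` of the `r` surfaces `w ^ r = u f(x, y)`, over all
extensions of degree prime to `r`. (This example is not part of the theorem.)

The structure `VarAut` contains the cohomology `H²(1)` with the Frobenius endomorphism `F^* / q` and with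
`σ`, and the divisors over the algebraic closure up to homological equivalence with rational
coefficients (classes which are linearly independent over `ℚ` are linearly independent over the
algebraic closure `K` of the field of `ℓ`-adic numbers). The divisors on `Y_i` over the extension of
degree `n` are those which are fixed by `(σ ^ i F) ^ n`. The cohomology and the divisors of `Y/σ` are
the `σ`-invariants; if `Y` is a surface, a smooth projective model of `Y/σ` has the same defect.
`IsRational` are the theorems of Deligne and of Katz and Messing.

The proof: let `ζ` be a primitive `r`-th root of unity and `n` prime to `r`. On the eigenspace `H_ζ` of `σ`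
the Frobenius endomorphism of `Y_i` over the extension of degree `n` is `ζ ^ (i n) F ^ n`; so it has
the eigenvalue `1` for at most `dim H_ζ` numbers `i`, and if it does not have it on `H_ζ` then it does
not have it on the eigenspaces for the other primitive roots of unity, since the character of `σ` on
the generalized eigenspace for the eigenvalue `1` is rational.
-/

namespace Pool.Agent.Results.MP_8ac872_ag.MostTwists

open Pool.Agent.T9h39.TD Pool.Agent.T9h39.Tw Module

/-- **The Tate conjecture for divisors for most twisted forms by an automorphism of prime order.** -/
theorem result {K : Type} [Field K] [CharZero K] [IsAlgClosed K] (Y : VarAut K) (r : ℕ)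
    (hr : r.Prime) (hσ : Y.σ ^ r = 1) (hY : Y.IsRational) :
    ∃ (T : Finset ℕ) (N : ℕ), (∀ i ∈ T, i < r) ∧ N.Coprime r ∧
      T.card * (r - 1) + (Y.quot (N * r)).mult ≤ (Y.twist 0 (N * r)).mult ∧
      T.card * (r - 1) + finrank K Y.inv ≤ finrank K Y.H ∧
      ∀ i < r, i ∉ T → ∀ n : ℕ, n.Coprime r →
        (Y.twist i n).mult = (Y.quot n).mult ∧ (Y.twist i n).defect = (Y.quot n).defect ∧
          ((Y.twist i n).Tate ↔ (Y.quot n).Tate) :=
  most_twists Y hY hr hσ

end Pool.Agent.Results.MP_8ac872_ag.MostTwists
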