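import Pool.Agent.T9h63.CU.Fin
import Pool.Agent.T9h63.CU.Cyclo
import Pool.Agent.T9h63.KT.Count

/-!
# The Tate conjecture for divisors for the surfaces `w ^ m = g(x, y) ^ m + h_1(x, y) ⋯ h_r(x, y)`

Let `k` be a finite field with `q` elements, `ℓ` a prime number which divides `q - 1`, `m = ℓ ^ a`, and `F` the
algebraic closure of `k`. Let `f` and `h_1, …, h_r` be polynomials in `k[x, y]` of positive degrees and `g` a
polynomial in `F[x, y]` such that

  `f = g ^ m + h_1 ⋯ h_r`

is irreducible over `F`, `m deg(g) < D = deg(h_1) + … + deg(h_r)`, `ℓ` does not divide `D`, the curve `f = 0`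
has `D` different points at infinity (the product of the leading forms of the `h_i` has no multiple
zeros), and for `i ≠ i'` there is no common zero of `g`, `h_i`, `h_i'`. Let `S` be the surface

  `w ^ m = f(x, y)`.

It contains the `r m` curves `C_ij`: `h_i = 0`, `w = z ^ j g`, for a primitive `m`-th root of unity `z`.

Let `L` be the polynomial with `Z(B, T) = L(T) / (1 - q T)` for the affine curve `B`: `f = 0`, and `P` the
polynomial with `Z(S, T) = 1 / ((1 - q ^ 2 T) P(T))`. (They exist: `P` is the product of the characteristic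
polynomials `det(1 - T Frob)` on the parts of the cohomology with compact supports belonging to the
nontrivial characters of the covering `S` of the plane, and these are concentrated in degree two.)

**Theorem.**

1. The ideals of the curves `C_ij` in the coordinate ring of `S` over `F` are invertible, and their
   classes generate a group of rank exactly `(r - 1) (m - 1)` in the class group (in fact the only relations
   between them are the sums of the trivial ones: `∑_j C_ij` is the divisor of `h_i` and `∑_i C_ij` is the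
   divisor of `w - z ^ j g`). The curves are defined over the extension of `k` of degree `ℓ ^ a`.
2. `P ≡ L ^ (m - 1)` modulo `ℓ`, and the number of the reciprocal roots of `P`, with multiplicities, of the form
   `q ζ` with a root of unity `ζ` of `ℓ`-power order is at most `(m - 1) μ`, where `μ` is the multiplicity
   of the root `1` of `L` modulo `ℓ`.
3. If `L` is modulo `ℓ` not divisible by any cyclotomic polynomial `Φ_n` with `n > 1` prime to `ℓ`, then all the
   reciprocal roots of `P` of the form `q ζ` with a root of unity `ζ` are as in 2.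

**Consequence for the Tate conjecture.** Let `Y` be a smooth projective surface over `k` which contains an
open subset isomorphic to the smooth part of `S`, for example any smooth projective model of a resolution of
`S`. The components of the complement and of the exceptional divisors give the same contribution to the
two sides of the conjecture. So both parts of the question hold for `Y` over an extension `k'` of `k` if and
only if the rank of the divisor class group of `S` over `k'` is the number of the eigenvalues `q'` of `P` over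
`k'`, and the rank is never larger. So if `μ = r - 1`, then both parts of the question hold for `Y`, over `k` and
over all extensions of `k` of degree `ℓ ^ b` (and also for all quotients of `Y` and all twists `c w ^ m = f`), for all
the primes `ℓ'` different from the characteristic; and the numbers in 1 and 2 are equal to `(r - 1)(m - 1)`.
If the condition in 3 is satisfied as well, then they hold for `Y` over **all** finite extensions of `k`. (This is
possible only if all the `h_i` have degree one, since the factor `(1 - T ^ deg(h_i)) / (1 - T)` of `L` comes from the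
points at infinity.)

**The condition.** It concerns only the curve `B` over `k`, and it does not change when `k` is replaced by an
extension of degree `ℓ ^ b`. Let `B` be smooth. If the leading forms of the `h_i` are irreducible over `k` of
degrees prime to `ℓ`, so that `B` has exactly `r` closed points at infinity, then `μ = r - 1` if and only if `ℓ`
does not divide the order of the group of rational points of the Jacobian of the completion of `B`. The
geometric genus of the surfaces and the rank are unbounded in the theorem.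

**Towers.** If `g` is a constant and `f = c + h_1 ⋯ h_r`, then `g` exists for every `a`, and `L`, `μ` and the
condition are the same for all `a`: a single condition on one curve implies the conjecture for the infinite
tower of the surfaces `w ^ (ℓ ^ a) = c + h_1 ⋯ h_r`, whose divisor class groups have rank
`(r - 1) (ℓ ^ a - 1)` over the fields of degree `ℓ ^ b`, `b ≥ a`.

**Examples** (checked by computer). (a) `ℓ = 2`, `q = 3`, `r = 3` and
`f = 1 + (x + 1)(y + 2)(x^3 + 2xy^2 + y^3 + x^2 + 2xy + y^2 + 2x + y)`: a smooth plane quintic with three closed points at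
infinity, whose Jacobian has `675` rational points. So the conjecture holds for the surfaces
`w ^ (2 ^ a) = f` for all `a` over the fields with `3 ^ (2 ^ b)` elements. For `a = 1` (a K3 surface with
`deg(P) = 16`) the polynomial `P` has indeed exactly two reciprocal roots `3`.
(b) `ℓ = 2`, `q = 5`, `r = 5` and `f = (2x^2 + 4)^2 + x(y + 1)(x + y + 3)(x + 2y)(x + 3y + 2)`; the Jacobian of
the quintic `f = 0` has `20495` rational points, and the condition in 3 is satisfied, too. So the surface
`w ^ 2 = f` has over all extensions of the field with five elements a divisor class group of rank `4`, which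
is the number of the Tate classes.
(c) `ℓ = 3`, `q = 7`, `r = 5` and `f = (2y + 3)^3 + (x + 4)(y + 3)(x + y + 3)(x + 2y + 6)(x + 3y + 2)`; the Jacobian
of the quintic has `269840` rational points, and the condition in 3 is satisfied. So both parts of the question
hold over all extensions of the field with seven elements for the smooth models of `w ^ 3 = f`, surfaces
of general type with `p_g = 3` and `K ^ 2 = 3`; the divisor class group has rank `8`.

**Proof.** 2: Since `ℓ` divides `q - 1`, the Frobenius orbits of `S` above an orbit of length `d` of the complement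
of `B` have lengths `d ℓ ^ j`; so the zeta function of this part of `S` is modulo `ℓ` the `m`-th power of that of the
complement of `B` in the plane. 1: Let `σ w = z w` and let `∏ J_ij ^ n_ij = (φ)` for the ideals `J_ij` of the curves. Then
the norm of `φ` is `u ∏ h_i ^ a_i`, `a_i = ∑_j n_ij`, and it is an `m`-th power modulo `f`. The orders at the
points at infinity of `f = 0` show that the `a_i` are all congruent modulo `m`; after multiplication of `φ` by
a power of `w - g` all are divisible by `m`, and `κ φ` has the same norm as `∏ h_i ^ (a_i / m)`. By Hilbert 90,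
`σ(θ) κ φ = θ ∏ h_i ^ (a_i / m)` for some `θ`. If `n_ij + ε = a_i / m + n'_i(j+1) - n'_ij` (`ε` is the change made
for `j = 0`), then `θ ∏ J_ij ^ n'_ij` is an ideal which is invertible and invariant under `σ`, and all these
ideals are principal, because `F[x, y]` is factorial and `f` is prime. So `∏ J_ij ^ n'_ij` is
principal, too. Hence if `D` is the difference operator in `j`, then `D(n_ij - n_i'j) = D ^ 2(n'_ij - n'_i'j)`, and one can
continue. Since `D ^ m` is divisible by `ℓ` on the periodic functions, `D(n_ij - n_i'j)` is divisible by all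
powers of `ℓ`, and so it is zero.
-/

set_option autoImplicit false

namespace Pool.Agent.Results.MP_8ac872_ag.RadicalSurfaces

open Polynomial

/-- The points, over the extension of degree `n` of the finite field `k`, of the affine plane curve
`f = 0`. -/
def curvePoints (k : Type) [Field k] [Fintype k] (f : MvPolynomial (Fin 2) k) (n : ℕ) :
    Set (Fin 2 → AlgebraicClosure k) :=
  {v | (∀ i, v i ^ Fintype.card k ^ n = v i) ∧ MvPolynomial.aeval v f = 0}

/-- The points, over the extension of degree `n` of `k`, of the affine surface `w ^ m = f(x, y)`. -/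
def surfacePoints (k : Type) [Field k] [Fintype k] (f : MvPolynomial (Fin 2) k) (m n : ℕ) :
    Set ((Fin 2 → AlgebraicClosure k) × AlgebraicClosure k) :=
  {p | (∀ i, p.1 i ^ Fintype.card k ^ n = p.1 i) ∧ p.2 ^ Fintype.card k ^ n = p.2 ∧
    p.2 ^ m = MvPolynomial.aeval p.1 f}

/-- `L(0) = 1` and `exp (∑ pts n T ^ n / n) = L(T) / (1 - q T)`, that is
`T L' / L = ∑_{n > 0} (pts n - q ^ n) T ^ n`. -/
def IsCurvePolynomial (q : ℕ) (pts : ℕ → ℕ) (L : ℤ[X]) : Prop :=
  L.coeff 0 = 1 ∧ ((X * derivative L : ℤ[X]) : PowerSeries ℤ) = (L : PowerSeries ℤ) *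
    PowerSeries.mk fun n => if n = 0 then 0 else (pts n : ℤ) - (q : ℤ) ^ n

/-- `P(0) = 1` and `exp (∑ pts n T ^ n / n) = 1 / ((1 - q ^ 2 T) P(T))`, that is
`T P' / P = ∑_{n > 0} (q ^ (2 n) - pts n) T ^ n`. -/
def IsSurfacePolynomial (q : ℕ) (pts : ℕ → ℕ) (P : ℤ[X]) : Prop :=
  P.coeff 0 = 1 ∧ ((X * derivative P : ℤ[X]) : PowerSeries ℤ) = (P : PowerSeries ℤ) *
    PowerSeries.mk fun n => if n = 0 then 0 else ((q : ℤ) ^ 2) ^ n - (pts n : ℤ)

open Classical in
/-- the number of the complex roots `z = 1 / α` of `P`, with multiplicities, such that `α = q ζ` for a root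
of unity `ζ` whose order is a power of `ℓ` -/
noncomputable def tateCount (ℓ q : ℕ) (P : ℤ[X]) : ℕ :=
  Multiset.card ((P.map (Int.castRingHom ℂ)).roots.filter
    fun z : ℂ => ∃ b : ℕ, (z * (q : ℂ)) ^ ℓ ^ b = 1)

/-- the multiplicity of the root `1` of `L` modulo `ℓ` -/
noncomputable def multOne (ℓ : ℕ) (L : ℤ[X]) : ℕ :=
  (L.map (Int.castRingHom (ZMod ℓ))).rootMultiplicity 1

/-- the coordinate ring `F[x, y, w] / (w ^ m - f)` of the affine surface `w ^ m = f(x, y)` -/
def Ring {F : Type} [Field F] (m : ℕ) (f : MvPolynomial (Fin 2) F) : Type :=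
  AdjoinRoot (X ^ m - C f : (MvPolynomial (Fin 2) F)[X])

noncomputable instance ringInst {F : Type} [Field F] (m : ℕ) (f : MvPolynomial (Fin 2) F) :
    CommRing (Ring m f) :=
  AdjoinRoot.instCommRing _

/-- the function `w` on the surface -/
noncomputable def coordW {F : Type} [Field F] (m : ℕ) (f : MvPolynomial (Fin 2) F) : Ring m f :=
  AdjoinRoot.root _

/-- the polynomial `p` in `x` and `y` as a function on the surface -/
noncomputable def ofXY {F : Type} [Field F] (m : ℕ) (f p : MvPolynomial (Fin 2) F) : Ring m f :=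
  AdjoinRoot.of _ p

/-- the ideal of the curve `h = 0`, `w = c g` on the surface `w ^ m = f(x, y)` -/
noncomputable def curveIdeal {F : Type} [Field F] (m : ℕ) (f h g : MvPolynomial (Fin 2) F) (c : F) :
    Ideal (Ring m f) :=
  Ideal.span {ofXY m f h, coordW m f - ofXY m f (MvPolynomial.C c * g)}

/-- `I` is invertible, as a fractional ideal -/
def Invertible' {R : Type} [CommRing R] [IsDomain R] (I : Ideal R) : Prop :=
  IsUnit (I : FractionalIdeal (nonZeroDivisors R) (FractionRing R))

open Classical in
/-- the class of an invertible ideal of a domain in the class group of its invertible fractional ideals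
modulo principal ideals (`0` if the ideal is not invertible) -/
noncomputable def idealClass {R : Type} [CommRing R] [IsDomain R] (I : Ideal R) :
    Additive (ClassGroup R) :=
  if h : Invertible' I then Additive.ofMul (ClassGroup.mk (FractionRing R) h.unit) else 0

/-- the rank of the group generated by the classes of the ideals `I_i` -/
noncomputable def rank {R : Type} [CommRing R] [IsDomain R] {ι : Type} (I : ι → Ideal R) : ℕ :=
  Module.finrank ℤ (Submodule.span ℤ (Set.range fun i => idealClass (I i)))

/-- The polynomial `p` with coefficients in the algebraic closure. -/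
noncomputable abbrev bar {k : Type} [Field k] (p : MvPolynomial (Fin 2) k) :
    MvPolynomial (Fin 2) (AlgebraicClosure k) :=
  MvPolynomial.map (algebraMap k (AlgebraicClosure k)) p

/-- The product of the leading forms of the `h_i`. -/
noncomputable def leading {k : Type} [Field k] {r : ℕ} (h : Fin r → MvPolynomial (Fin 2) k) :
    MvPolynomial (Fin 2) k :=
  ∏ i, MvPolynomial.homogeneousComponent (h i).totalDegree (h i)

/-- `f = g ^ m + ∏ h_i` is irreducible over the algebraic closure, the degrees of the `h_i` are positive,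
their sum `D` is larger than `m deg(g)` and is not divisible by `ℓ`; the product of the leading forms
of the `h_i` has no multiple zeros; `g`, `h_i`, `h_i'` have no common zeros for `i ≠ i'`. -/
structure IsRadical {k : Type} [Field k] (ℓ m : ℕ) {r : ℕ} (f : MvPolynomial (Fin 2) k)
    (h : Fin r → MvPolynomial (Fin 2) k) (g : MvPolynomial (Fin 2) (AlgebraicClosure k)) : Prop where
  eq : bar f = g ^ m + ∏ i, bar (h i)
  irreducible : Irreducible (bar f)
  pos : ∀ i, 0 < (h i).totalDegree
  lt : m * g.totalDegree < ∑ i, (h i).totalDegree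
  not_dvd : ¬ ℓ ∣ ∑ i, (h i).totalDegree
  simple_zeros : ∀ v : Fin 2 → AlgebraicClosure k, v ≠ 0 → MvPolynomial.aeval v (leading h) = 0 →
    ∃ s, MvPolynomial.aeval v (MvPolynomial.pderiv s (leading h)) ≠ 0
  no_common : ∀ i i', i ≠ i' → ∀ v : Fin 2 → AlgebraicClosure k, MvPolynomial.eval v g = 0 →
    MvPolynomial.aeval v (h i) = 0 → MvPolynomial.aeval v (h i') ≠ 0

/-- the ideal of the curve `h_i = 0`, `w = z ^ j g` on the surface `w ^ m = f` -/
noncomputable def J {k : Type} [Field k] (m : ℕ) {r : ℕ} (f : MvPolynomial (Fin 2) k)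
    (h : Fin r → MvPolynomial (Fin 2) k) (g : MvPolynomial (Fin 2) (AlgebraicClosure k))
    (z : AlgebraicClosure k) (p : Fin r × Fin m) : Ideal (Ring m (bar f)) :=
  curveIdeal m (bar f) (bar (h p.1)) g (z ^ (p.2 : ℕ))

/-- `z` and the coefficients of `g` are in the extension of degree `m` of `k` -/
def DefinedOver (k : Type) [Field k] [Fintype k] (m : ℕ) (z : AlgebraicClosure k)
    (g : MvPolynomial (Fin 2) (AlgebraicClosure k)) : Prop :=
  z ^ Fintype.card k ^ m = z ∧
    ∀ e, MvPolynomial.coeff e g ^ Fintype.card k ^ m = MvPolynomial.coeff e g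

/-- no cyclotomic polynomial `Φ_n` with `n > 1` prime to `ℓ` divides `L` modulo `ℓ` -/
def NoCyclotomic (ℓ : ℕ) (L : ℤ[X]) : Prop :=
  ∀ n : ℕ, 1 < n → ¬ ℓ ∣ n → ¬ cyclotomic n (ZMod ℓ) ∣ L.map (Int.castRingHom (ZMod ℓ))

/-- the roots `1 / α` of `P` with `α = q ζ` for a root of unity `ζ` are those where the order of `ζ` is a
power of `ℓ` -/
def OnlyPowerOrder (ℓ q : ℕ) (P : ℤ[X]) : Prop :=
  ∀ t : ℂ, (P.map (Int.castRingHom ℂ)).eval t = 0 → ∀ N : ℕ, 0 < N → (t * (q : ℂ)) ^ N = 1 →
    ∃ b : ℕ, (t * (q : ℂ)) ^ ℓ ^ b = 1

/-- **The Tate conjecture for divisors for the surfaces `w ^ m = g ^ m + h_1 ⋯ h_r`.**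

Let `k` be a finite field with `q` elements, `ℓ` a prime number which divides `q - 1`, `m = ℓ ^ a`, and let `f`,
`h_i` and `g` be as in `IsRadical`: `f = g ^ m + ∏ h_i`. Let `z` be a primitive `m`-th root of unity in the
algebraic closure `F` of `k`, `Z(B, T) = L(T) / (1 - q T)` for the curve `B`: `f = 0`, and
`Z(S, T) = 1 / ((1 - q ^ 2 T) P(T))` for the surface `S`: `w ^ m = f`. Then the ring `F[x, y, w] / (w ^ m - f)` is
a domain; the ideals `(h_i, w - z ^ j g)` are invertible and their classes generate a group of rank
`(r - 1) (m - 1)`; the coefficients of `g` and `z` belong to the extension of `k` of degree `m`;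
`P = L ^ (m - 1)` modulo `ℓ`; the number of the roots `1 / α` of `P` with `α = q ζ` for a root of unity `ζ` of
`ℓ`-power order is at most `m - 1` times the multiplicity of the root `1` of `L` modulo `ℓ`; and if no
cyclotomic polynomial `Φ_n` with `n > 1` prime to `ℓ` divides `L` modulo `ℓ`, then these are all the
roots `1 / α` of `P` with `α = q ζ` for a root of unity `ζ`. -/
theorem result (k : Type) [Field k] [Fintype k] (ℓ a r : ℕ) (hℓ : ℓ.Prime)
    (hk : ℓ ∣ Fintype.card k - 1) (hr : 0 < r) (f : MvPolynomial (Fin 2) k)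
    (h : Fin r → MvPolynomial (Fin 2) k) (g : MvPolynomial (Fin 2) (AlgebraicClosure k))
    (H : IsRadical ℓ (ℓ ^ a) f h g) (z : AlgebraicClosure k) (hz : IsPrimitiveRoot z (ℓ ^ a))
    (L P : ℤ[X]) (hL : IsCurvePolynomial (Fintype.card k) (fun n => (curvePoints k f n).ncard) L)
    (hP : IsSurfacePolynomial (Fintype.card k)
      (fun n => (surfacePoints k f (ℓ ^ a) n).ncard) P) :
    (∃ _ : IsDomain (Ring (ℓ ^ a) (bar f)), (∀ p, Invertible' (J (ℓ ^ a) f h g z p)) ∧
      rank (J (ℓ ^ a) f h g z) = (r - 1) * (ℓ ^ a - 1)) ∧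
      DefinedOver k (ℓ ^ a) z g ∧
      P.map (Int.castRingHom (ZMod ℓ)) = L.map (Int.castRingHom (ZMod ℓ)) ^ (ℓ ^ a - 1) ∧
      tateCount ℓ (Fintype.card k) P ≤ multOne ℓ L * (ℓ ^ a - 1) ∧
      (NoCyclotomic ℓ L → OnlyPowerOrder ℓ (Fintype.card k) P) := by
  obtain ⟨hfg, hirr, hd, hg, hcopr, htop, hcop⟩ := H
  haveI : Fact ℓ.Prime := ⟨hℓ⟩
  have hqm : ((Fintype.card k : ℕ) : ZMod ℓ) = 1 := Pool.Agent.W555.TC.q_mod hk
  have hm0 : ℓ ^ a ≠ 0 := pow_ne_zero _ hℓ.ne_zero
  haveI : NeZero (ℓ ^ a) := ⟨hm0⟩
  have hinj : Function.Injective (algebraMap k (AlgebraicClosure k)) :=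
    (algebraMap k (AlgebraicClosure k)).injective
  set ff := MvPolynomial.map (algebraMap k (AlgebraicClosure k)) f with hff
  have hlF : (ℓ : AlgebraicClosure k) ≠ 0 := Pool.Agent.T9h63.CU.l_ne (k := k) hk
  have htd : ∀ i, (MvPolynomial.map (algebraMap k (AlgebraicClosure k)) (h i)).totalDegree = (h i).totalDegree :=
    fun i => by
      unfold MvPolynomial.totalDegree
      rw [MvPolynomial.support_map_of_injective _ hinj]
  have hprod : ∏ i, MvPolynomial.homogeneousComponent
        (MvPolynomial.map (algebraMap k (AlgebraicClosure k)) (h i)).totalDegree (MvPolynomial.map (algebraMap k (AlgebraicClosure k)) (h i))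
      = MvPolynomial.map (algebraMap k (AlgebraicClosure k))
        (∏ i, MvPolynomial.homogeneousComponent (h i).totalDegree (h i)) := by
    rw [map_prod]
    apply Finset.prod_congr rfl
    intro i _
    rw [htd, Pool.Agent.T9h63.CU.hc_map]
  obtain ⟨hu, hrank⟩ := Pool.Agent.T9h63.CU.rank_main (F := AlgebraicClosure k) hℓ hlF hz hr
    (h := fun i => MvPolynomial.map (algebraMap k (AlgebraicClosure k)) (h i)) (g := g) (f := ff) hfg hirr
    (fun i => by rw [htd]; exact hd i)
    (by simp only [htd]; exact hg)
    (by simp only [htd]; exact (Nat.Prime.coprime_iff_not_dvd hℓ).2 hcopr)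
    (by
      intro v hv h0
      rw [hprod, Pool.Agent.T9h63.CU.eval_map'] at h0
      obtain ⟨s, hs⟩ := htop v hv h0
      refine ⟨s, ?_⟩
      rw [hprod, MvPolynomial.pderiv_map, Pool.Agent.T9h63.CU.eval_map']
      exact hs)
    (by
      intro i i' hne
      apply Pool.Agent.T9h63.CU.top_of_points
      intro v h1 h2 h3
      rw [Pool.Agent.T9h63.CU.eval_map'] at h2 h3
      exact hcop i i' hne v h1 h2 h3)
  haveI hdom : IsDomain (Ring (ℓ ^ a) ff) := Pool.Agent.T9h63.CU.isDomain_Rg hm0 hirr.prime
  haveI hdom2 : IsDomain (Pool.Agent.T9h63.CU.Rg (ℓ ^ a) ff) := hdom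
  have hJ : ∀ (i : Fin r) (j : ZMod (ℓ ^ a)), Pool.Agent.T9h63.CU.JJ
      (Pool.Agent.T9h63.CU.rw' (ℓ ^ a) ff) (MvPolynomial.C z)
      (fun i => MvPolynomial.map (algebraMap k (AlgebraicClosure k)) (h i)) g i j
      = curveIdeal (ℓ ^ a) ff (MvPolynomial.map (algebraMap k (AlgebraicClosure k)) (h i)) g (z ^ j.val) := by
    intro i j
    unfold Pool.Agent.T9h63.CU.JJ Pool.Agent.T9h63.CU.vv Pool.Agent.T9h63.CU.zz curveIdeal
    rw [← map_pow]
    rfl
  have hcls : ∀ I : Ideal (Ring (ℓ ^ a) ff), Pool.Agent.T9h63.CU.cls I = idealClass I :=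
    fun I => rfl
  have hcong : P.map (Int.castRingHom (ZMod ℓ))
      = L.map (Int.castRingHom (ZMod ℓ)) ^ (ℓ ^ a - 1) := by
    refine Pool.Agent.T9h63.CU.surf_cong (k := k) (K := AlgebraicClosure k) f hk a
      (cB := fun n => (curvePoints k f n).ncard) (cS := fun n => (surfacePoints k f (ℓ ^ a) n).ncard)
      ?_ ?_ hL hP
    · intro n _
      show (curvePoints k f n).ncard = _
      unfold Pool.Agent.T9h63.KT.cnt
      congr 1
      ext v
      simp only [curvePoints, Set.mem_setOf_eq, Pool.Agent.W555.TC.per_iff,
        Pool.Agent.T9h63.CU.vl]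
    · intro n _
      show (surfacePoints k f (ℓ ^ a) n).ncard = _
      unfold Pool.Agent.T9h63.KT.cnt
      congr 1
      ext p
      simp only [surfacePoints, Set.mem_setOf_eq, Pool.Agent.T9h63.CU.PS_per,
        Pool.Agent.T9h63.CU.sf, Pool.Agent.T9h63.CU.vl]
      constructor
      · rintro ⟨h1, h2, h3⟩
        exact ⟨⟨h1, h2⟩, h3⟩
      · rintro ⟨⟨h1, h2⟩, h3⟩
        exact ⟨h1, h2, h3⟩
  refine ⟨⟨hdom, ?_, ?_⟩, ⟨?_, ?_⟩, hcong, ?_, ?_⟩
  · rintro ⟨i, j⟩
    have h1 := hu i ((j : ℕ) : ZMod (ℓ ^ a))
    rw [hJ, ZMod.val_natCast, Nat.mod_eq_of_lt j.2] at h1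
    exact h1
  · unfold rank
    rw [← hrank]
    have hrange : (Set.range fun p : Fin r × Fin (ℓ ^ a) => idealClass (J (ℓ ^ a) f h g z p))
        = Set.range fun p : Fin r × ZMod (ℓ ^ a) => Pool.Agent.T9h63.CU.cls
          (Pool.Agent.T9h63.CU.JJ (Pool.Agent.T9h63.CU.rw' (ℓ ^ a) ff) (MvPolynomial.C z)
            (fun i => MvPolynomial.map (algebraMap k (AlgebraicClosure k)) (h i)) g p.1 p.2) := by
      ext x
      constructor
      · rintro ⟨⟨i, j⟩, rfl⟩
        refine ⟨(i, ((j : ℕ) : ZMod (ℓ ^ a))), ?_⟩
        show Pool.Agent.T9h63.CU.cls _ = idealClass (curveIdeal _ _ _ _ _)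
        rw [hJ, ZMod.val_natCast, Nat.mod_eq_of_lt j.2, hcls]
      · rintro ⟨⟨i, j⟩, rfl⟩
        refine ⟨(i, ⟨j.val, ZMod.val_lt j⟩), ?_⟩
        show idealClass (curveIdeal _ _ _ _ _) = Pool.Agent.T9h63.CU.cls _
        rw [hJ, hcls]
    rw [hrange]
    rfl
  · exact Pool.Agent.T9h63.CU.pow_root hk hz.pow_eq_one
  · intro e
    apply Pool.Agent.T9h63.CU.coeff_g (p := f - ∏ i, h i) hk hz
    have e : ff = g ^ ℓ ^ a + ∏ i, MvPolynomial.map (algebraMap k (AlgebraicClosure k)) (h i) := hfg
    rw [map_sub, map_prod, ← hff, e]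
    ring
  · classical
    have hL0 : L.map (Int.castRingHom (ZMod ℓ)) ≠ 0 := Pool.Agent.T9h63.KT.map_ne_zero_of hL.1
    have h1 := Pool.Agent.T9h63.KT.count_le hqm P.natDegree P hP.1 le_rfl
    rw [hcong, Pool.Agent.W555.TC.mult_pow hL0] at h1
    refine le_trans ?_ (le_of_le_of_eq h1 (mul_comm _ _))
    unfold tateCount
    apply Multiset.card_le_card
    apply Multiset.monotone_filter_right
    rintro x ⟨b, hb⟩
    exact ⟨b, 1, by rwa [pow_one]⟩
  · intro hcyc t ht N hN h
    have h1 := Pool.Agent.T9h63.CU.no_cyc (j := 1) hqm hcong hcyc ht hN (by rwa [pow_one])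
    rwa [pow_one] at h1

end Pool.Agent.Results.MP_8ac872_ag.RadicalSurfaces
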